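import Pool.Agent.H76.SW.T

/-!
Descending to a branching term.
-/

set_option autoImplicit false

namespace Pool.Agent.H49.SW

open Pool.Agent.H76.SW Relation

lemma sep_self {A P Q I : Type} (gs : P → Option (A × Bool) → P → Prop)
    (tr : Q → A × Bool → Q → Prop) (c : I → P) (x : P) (i : I) : Sep gs tr c x (c i) :=
  ⟨fun _ s' h => ⟨i, s', h, ReflTransGen.refl⟩, fun s _ h => ⟨i, s, ReflTransGen.refl, h⟩⟩

lemma sep_comp {A P Q I J : Type} (gs : P → Option (A × Bool) → P → Prop)
    (tr : Q → A × Bool → Q → Prop) (c : I → P) (m : J → P) (x y : P)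
    (h : ∀ b, Sep gs tr c x (m b)) (h' : Sep gs tr m x y) : Sep gs tr c x y := by
  refine ⟨fun s s' hr => ?_, fun s s' hr => ?_⟩
  · obtain ⟨b, s1, r1, r2⟩ := h'.1 s s' hr
    obtain ⟨a, s2, r3, r4⟩ := (h b).1 s s1 r1
    exact ⟨a, s2, r3, ReflTransGen.trans r4 r2⟩
  · obtain ⟨b, s1, r1, r2⟩ := h'.2 s s' hr
    obtain ⟨a, s2, r3, r4⟩ := (h b).2 s1 s' r2
    exact ⟨a, s2, ReflTransGen.trans r1 r3, r4⟩

theorem pf_A2 (h1 : U_s4_child) (h2 : U_s9_exit) : U_a2_descend := by
  intro A P Q k gs hs tr L _ T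
  induction T with
  | edge a =>
    intro hT ι ho lab
    exact ⟨.edge a, ι, lab, hT, ho, fun _ => rfl, trivial, fun a' c =>
      sep_self gs tr (fun c => ι ((Term.edge a).pt c)) _ c⟩
  | node n m src tgt ch p q ih =>
    intro hT ι ho lab
    by_cases hb : Branch (Term.node n m src tgt ch p q) lab
    · exact ⟨_, ι, lab, hT, ho, fun _ => rfl, hb, fun a' c =>
        sep_self gs tr (fun c => ι ((Term.node n m src tgt ch p q).pt c)) _ c⟩
    · have hb' : ∃ i : Fin m, ∀ a, ∃ x, lab a = Sum.inr ⟨i, x⟩ := by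
        by_contra hc
        apply hb
        intro i
        by_contra hd
        apply hc
        refine ⟨i, fun a => ?_⟩
        by_contra he
        exact hd ⟨a, fun x hx => he ⟨x, hx⟩⟩
      obtain ⟨i, hi⟩ := hb'
      choose x hx using hi
      have hoc := h1 gs ho i
      obtain ⟨T', ι', lab', w', o', e', b', s'⟩ := ih i (hT.2 i) _ hoc x
      refine ⟨T', ι', lab', w', o', fun a => ?_, b', fun a c => ?_⟩
      · rw [e' a, hx a]
      · have hsep := h2 gs hs tr (ch i) _ hoc (ι (lab a))
          (ι ((Term.node n m src tgt ch p q).pt c)) ⟨x a, by rw [hx a]⟩ (by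
            rintro ⟨z, hz⟩
            have := ho.inj hz
            cases c <;> simp [Term.pt] at this)
        refine sep_comp gs tr _ _ _ _ (fun b => ?_) hsep
        have := s' a b
        rw [hx a]
        exact this

end Pool.Agent.H49.SW
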